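import Pool.Agent.W2helper44.OT.Main
import Pool.Agent.W2helper54.OT.ONE
import Pool.Agent.W2helper12.OT.PAIR
import Pool.Agent.W2helper19.OT.PERM
import Pool.Agent.W2helper79.OT.UNIT
import Pool.Agent.W2helper97.OT.ODD
import Pool.Agent.W2helper68.OT.EVEN
import Pool.Agent.W2helper28.OT.TOT
import Pool.Agent.W2helper71.OT.TORS
import Pool.Agent.W2helper99.OT.CLASS
import Pool.Agent.W2helper52.OT.ORL

/-!
# Orlik's conjecture on the torsion of the homology of links

Let `f` be a quasi-smooth weighted homogeneous polynomial in `n + 1` variables. Orlik's conjecture
(1972) gives the torsion subgroup of `H_{n-1}(L_f, ℤ)`, `L_f` the link of `f`, by an explicit recipe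
from the weights and the degree. It was known for invertible polynomials (Hertling and Mase).

The theorem proves the conjecture for all quasi-smooth weighted homogeneous polynomials, from the known
topology of the Milnor fibre `F`, which is not in Mathlib and is collected in the structure
`KnownTopology w d f K`: `K` is a finite equivariant cell structure of `F` for the cyclic group of
order `d` generated by the monodromy `h`; the fixed point sets of the elements of prime power order,
which are the Milnor fibres of the restrictions of `f` to the coordinate subspaces, have reduced
homology in the middle dimension only, which is torsion-free (Milnor); the rank of its `h`-invariant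
part is given by the formula of Milnor and Orlik; and the torsion of `H_{n-1}(L_f)` is the torsion
of the cokernel of `h - 1` on `H_n(F)` (Wang sequence).

Idea of the proof. The torsion of the cokernel of `h - 1` is a Tate group of the cyclic group
`⟨h⟩` of order `d` with coefficients in `H_n(F)`. Fix a prime `p`. Modulo groups of order prime
to `p` the Tate hypercohomology of the chains of `F` and of the fixed point set of the subgroup of
order `p` agree, since the other cells have stabilisers of order prime to `p`; so the Tate groups
with coefficients in the homology of `F` and of the fixed point set are the same, up to a shift by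
the difference of the dimensions. On the fixed point set the group acts through the
quotient of order `d / p`; the passage from Tate groups of the group of order `d` to Tate groups of
this quotient changes nothing in odd degrees and adds one to each of the exponents of the first `r`
summands in even degrees, `r` the rank of the invariants. Orlik's recipe is the result of this
recursion.
-/

set_option autoImplicit false

open MvPolynomial

namespace Pool.Agent.Results.MP_1ba768_gt.OrlikFromMilnorFibre

open Pool.Agent.W2helper44.OT in
/-- **Orlik's conjecture**, for all quasi-smooth weighted homogeneous polynomials, from the known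
topology of the Milnor fibre. (`_hn` and `_hf` are the assumptions under which `KnownTopology` is
known.) -/
theorem result (n : ℕ) (_hn : 1 ≤ n) (w : Fin (n + 1) → ℕ) (d : ℕ)
    (f : MvPolynomial (Fin (n + 1)) ℂ) (hw : ∀ i, 0 < w i) (hd : 0 < d)
    (_hf : IsQuasiSmooth w d f) (K : Cells) (hK : KnownTopology w d f K)
    (c : Finset (Fin (n + 1)) → ℕ) (hc : IsOrlikC (uOf w d) c) :
    Nonempty (AddCommGroup.torsion (linkHomology f) ≃+
      ((j : Fin (orlikR w d)) → ZMod (orlikD w d c (j + 1)))) :=
  orlik Pool.Agent.W2helper54.OT.ONE.p_ONE Pool.Agent.W2helper12.OT.p_PAIR
    Pool.Agent.W2helper19.OT.p_PERM Pool.Agent.W2helper79.OT.p_UNIT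
    Pool.Agent.W2helper97.OT.p_ODD Pool.Agent.W2helper68.OT.p_EVEN Pool.Agent.W2helper28.OT.p_TOT
    Pool.Agent.W2helper71.OT.p_TORS Pool.Agent.W2helper99.OT.p_CLASS
    Pool.Agent.W2helper52.OT.p_ORL n w d f hw hd K hK c hc

end Pool.Agent.Results.MP_1ba768_gt.OrlikFromMilnorFibre
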