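import Pool.Agent.W2helper44.OT.Gen
import Pool.Agent.W2helper54.OT.ONE
import Pool.Agent.W2helper12.OT.PAIR
import Pool.Agent.W2helper19.OT.PERM
import Pool.Agent.W2helper79.OT.UNIT
import Pool.Agent.W2helper97.OT.ODD
import Pool.Agent.W2helper68.OT.EVEN
import Pool.Agent.W2helper28.OT.TOT
import Pool.Agent.W2helper71.OT.TORS
import Pool.Agent.W2helper99.OT.CLASS

/-!
# The torsion of the coinvariants of a cyclic group action with spherical fixed point sets

Let a cyclic group of order `d`, with generator `h`, act cellularly on a finite cell complex `X`, such
that for every subgroup of prime power order `p ^ t` the reduced homology of the fixed point set is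
concentrated in one dimension and torsion-free. Then the torsion of the cokernel of `h - 1` on the
homology of `X` is determined by the dimensions and by the ranks of the invariants of the homology of
these fixed point sets: it is the sum of the cyclic groups of the orders
`∏ p, p ^ #{t | 1 ≤ t ≤ v_p(d), the dimensions of X and of X ^ (p ^ t) have different parity, rank > j}`
for `j = 0, 1, …`.

Nothing is assumed on singularities. For the Milnor fibre of a quasi-smooth weighted homogeneous
polynomial, whose fixed point sets are the Milnor fibres of the restrictions to coordinate subspaces,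
this is the recipe of Orlik's conjecture.
-/

set_option autoImplicit false

namespace Pool.Agent.Results.MP_1ba768_gt.SphericalFixedSets

open Pool.Agent.W2helper44.OT in
/-- The torsion of the cokernel of `h - 1` for a cyclic group action with spherical fixed point
sets. -/
theorem result (K : Cells) (d : ℕ) (hd : 0 < d) (a : ℕ → ℕ → ℕ) (n : ℕ)
    (hK : K.HasSphericalFixedSets d a n) (R : ℕ)
    (hR : ∀ p t : ℕ, p.Prime → p ^ t ∣ d → K.invRank (d / p ^ t) (a p t) ≤ R) :
    Nonempty (AddCommGroup.torsion (K.Coinv d n) ≃+
      ((j : Fin R) → ZMod (K.elemDiv d a n j))) := by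
  have h := coinv Pool.Agent.W2helper54.OT.ONE.p_ONE Pool.Agent.W2helper12.OT.p_PAIR
    Pool.Agent.W2helper19.OT.p_PERM Pool.Agent.W2helper79.OT.p_UNIT
    Pool.Agent.W2helper97.OT.p_ODD Pool.Agent.W2helper68.OT.p_EVEN Pool.Agent.W2helper28.OT.p_TOT
    Pool.Agent.W2helper71.OT.p_TORS Pool.Agent.W2helper99.OT.p_CLASS K d hd a n hK R hR
  cases n with
  | zero => exact h
  | succ n => exact h

end Pool.Agent.Results.MP_1ba768_gt.SphericalFixedSets
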